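import Mathlib
import Pool.Agent.R203.AdicM
import Pool.Agent.R203.UnderRec

/-!
# MP_73c876_an: an ergodic system with an under-recurrent function with values in `[0,1]` but
without under-recurrent sets

The system is the extension of the 6-adic odometer by `Z/6` given by the base 6 Rudin-Shapiro
cocycle `∑ i, x_i x_{i+1}`.
-/

set_option autoImplicit false
open MeasureTheory Filter Topology

namespace Pool.Agent.Results.MP_73c876_an.ErgodicExample

open Pool.Agent.R203.Adic

/-- under-recurrent sets -/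
def UnderRecurrentSet {X : Type} [MeasurableSpace X] (μ : Measure X) (T : X → X) (A : Set X) :
    Prop :=
  MeasurableSet A ∧ 0 < μ.real A ∧ μ.real A < 1 ∧
    ∀ n : ℕ, 1 ≤ n → μ.real (A ∩ T^[n] ⁻¹' A) ≤ μ.real A ^ 2

/-- under-recurrent functions -/
def UnderRecurrentFun {X : Type} [MeasurableSpace X] (μ : Measure X) (T : X → X) (f : X → ℝ) :
    Prop :=
  MemLp f 2 μ ∧ (∀ c : ℝ, ¬ f =ᵐ[μ] fun _ => c) ∧
    ∀ n : ℕ, 1 ≤ n → ∫ x, f x * f (T^[n] x) ∂μ ≤ (∫ x, f x ∂μ) ^ 2

/-! ### The system -/

/-- uniform measure on `Z/6` -/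
noncomputable def nu : Measure (ZMod 6) := (6 : ENNReal)⁻¹ • Measure.count

instance : IsProbabilityMeasure nu := ⟨by
  rw [nu, Measure.smul_apply, Measure.count_univ, smul_eq_mul]
  simp only [ENat.card_eq_coe_fintype_card, ZMod.card]
  norm_num
  exact ENNReal.inv_mul_cancel (by norm_num) (by norm_num)⟩

lemma integral_nu (g : ZMod 6 → ℝ) : ∫ c, g c ∂nu = 1 / 6 * ∑ c, g c := by
  rw [nu, integral_smul_measure, integral_count, smul_eq_mul]
  simp

lemma nu_add (a : ZMod 6) : nu.map (fun c => c + a) = nu := by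
  ext s hs
  rw [Measure.map_apply (measurable_of_countable _) hs, nu, Measure.smul_apply,
    Measure.smul_apply]
  congr 1
  have : (fun c : ZMod 6 => c + a) ⁻¹' s = (Equiv.addRight (-a)) '' s := by
    ext c
    simp only [Set.mem_preimage, Set.mem_image, Equiv.coe_addRight]
    constructor
    · intro h
      exact ⟨c + a, h, by ring⟩
    · rintro ⟨b, hb, rfl⟩
      simpa using hb
  rw [this]
  exact Measure.count_injective_image (Equiv.addRight (-a)).injective s

abbrev X : Type := Y × ZMod 6

noncomputable def mu : Measure X := muY.prod nu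

instance : IsProbabilityMeasure mu := by unfold mu; infer_instance

/-- the transformation -/
noncomputable def T (p : X) : X := (p.1 + 1, p.2 + phi p.1)

lemma T_iter (n : ℕ) (p : X) : T^[n] p = (p.1 + n, p.2 + cs n p.1) := by
  induction n with
  | zero => simp [cs]
  | succ n ih =>
    rw [Function.iterate_succ_apply', ih]
    have e : cs (n + 1) p.1 = cs n p.1 + phi (p.1 + n) := Finset.sum_range_succ _ _
    unfold T
    rw [e]
    push_cast
    refine Prod.ext ?_ ?_
    · simp only; ring
    · simp only; ring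

lemma T_mp : MeasurePreserving T mu mu := by
  have h1 : MeasurePreserving (fun x : Y => x + 1) muY muY := measurePreserving_add_right muY 1
  have h2 : Measurable (Function.uncurry fun (x : Y) (c : ZMod 6) => c + phi x) := by
    have h3 : Measurable fun p : ZMod 6 × ZMod 6 => p.1 + p.2 := measurable_of_countable _
    exact h3.comp (measurable_snd.prodMk (phi_meas.comp measurable_fst))
  exact h1.skew_product h2 (Eventually.of_forall fun x => nu_add (phi x))

lemma T_iter_meas (n : ℕ) : Measurable (T^[n]) := T_mp.measurable.iterate n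

/-- rotation of the fibre -/
def V (a : ZMod 6) (p : X) : X := (p.1, p.2 + a)

lemma V_mp (a : ZMod 6) : MeasurePreserving (V a) mu mu := by
  have h1 : MeasurePreserving (fun c : ZMod 6 => c + a) nu nu :=
    ⟨measurable_of_countable _, nu_add a⟩
  exact (MeasurePreserving.id muY).prod h1

lemma V_comm (a : ZMod 6) (n : ℕ) (p : X) : T^[n] (V a p) = V a (T^[n] p) := by
  rw [T_iter, T_iter]
  unfold V
  refine Prod.ext rfl ?_
  simp only
  ring

lemma integral_mu {F : X → ℝ} (hF : Integrable F mu) :
    ∫ p, F p ∂mu = ∫ x, (1 / 6 * ∑ c, F (x, c)) ∂muY := by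
  rw [mu, integral_prod _ hF]
  simp only [integral_nu]

lemma integrable_of_bdd {F : X → ℝ} (hm : Measurable F) {C : ℝ} (hC : ∀ p, |F p| ≤ C) :
    Integrable F mu :=
  Integrable.of_bound hm.aestronglyMeasurable C
    (Eventually.of_forall fun x => by rw [Real.norm_eq_abs]; exact hC _)

/-! ### The under-recurrent function -/

/-- four times the function -/
def fz (c : ZMod 6) : ℤ := ![4, 3, 1, 0, 1, 3] c

noncomputable def f (p : X) : ℝ := (fz p.2 : ℝ) / 4

lemma fz_range : ∀ c : ZMod 6, 0 ≤ fz c ∧ fz c ≤ 4 := by decide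

lemma f_range (p : X) : 0 ≤ f p ∧ f p ≤ 1 := by
  have h := fz_range p.2
  have h1 : (0 : ℝ) ≤ fz p.2 := by exact_mod_cast h.1
  have h2 : (fz p.2 : ℝ) ≤ 4 := by exact_mod_cast h.2
  unfold f
  constructor
  · positivity
  · linarith

/-- the centred correlation, times 96 -/
def Kz (e : ZMod 6) : ℤ := ∑ c : ZMod 6, fz c * fz (c + e) - 24

lemma Kz_sum : ∀ δ : ZMod 6, δ ≠ 0 → ∀ c : ZMod 6,
    ∑ j ∈ Finset.range 6, Kz (c + (j : ZMod 6) * δ) = 0 := by decide

lemma f_meas : Measurable f := by
  have h : Measurable fun c : ZMod 6 => (fz c : ℝ) / 4 := measurable_of_countable _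
  exact h.comp measurable_snd

lemma K_zero {n : ℕ} (hn : 0 < n) : ∫ x, (Kz (cs n x) : ℝ) ∂muY = 0 := by
  have hq : Nice (fun (_ : Y) (c : ZMod 6) => (Kz c : ℝ)) := by
    refine ⟨fun c => measurable_const, ⟨∑ c : ZMod 6, |(Kz c : ℝ)|, fun x c => ?_⟩⟩
    exact Finset.single_le_sum (f := fun c : ZMod 6 => |(Kz c : ℝ)|)
      (fun c _ => abs_nonneg _) (Finset.mem_univ c)
  have hi : Integrable (fun x => (Kz (cs n x) : ℝ)) muY := hq.integrable (cs_meas n)
  have hE : ∀ t, ∫ x in E n t, (Kz (cs n x) : ℝ) ∂muY = 0 := by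
    intro t
    rw [randomise (q := fun (_ : Y) (c : ZMod 6) => (Kz c : ℝ)) hq (fun x _ => rfl)]
    rw [← integral_indicator (E_meas n t)]
    have : (E n t).indicator (fun x => 1 / 6 * ∑ j ∈ Finset.range 6,
        (Kz (cs n x + j * del n t x) : ℝ)) = fun _ => 0 := by
      funext x
      by_cases hx : x ∈ E n t
      · rw [Set.indicator_of_mem hx]
        have := Kz_sum (del n t x) (del_ne hx) (cs n x)
        have h2 : ∑ j ∈ Finset.range 6, (Kz (cs n x + j * del n t x) : ℝ) = 0 := by
          exact_mod_cast congrArg (Int.cast : ℤ → ℝ) this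
        rw [h2, mul_zero]
      · rw [Set.indicator_of_notMem hx]
    rw [this, integral_zero]
  apply le_antisymm
  · have := integral_nonneg_of_E hn hi.neg (fun t => by
      simp only [Pi.neg_apply, integral_neg, hE t, neg_zero, le_refl])
    simp only [Pi.neg_apply, integral_neg] at this
    linarith
  · exact integral_nonneg_of_E hn hi fun t => (hE t).ge

theorem f_under : UnderRecurrentFun mu T f := by
  have hint : ∫ p, f p ∂mu = 1 / 2 := by
    rw [integral_mu (integrable_of_bdd f_meas (C := 1) fun p => by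
      rw [abs_of_nonneg (f_range p).1]; exact (f_range p).2)]
    have : ∑ c : ZMod 6, fz c = 12 := by decide
    have h2 : ∑ c : ZMod 6, (fz c : ℝ) = 12 := by exact_mod_cast congrArg (Int.cast : ℤ → ℝ) this
    simp only [f, ← Finset.sum_div, h2]
    simp
    norm_num
  refine ⟨?_, ?_, ?_⟩
  · exact MemLp.of_bound f_meas.aestronglyMeasurable 1 (Eventually.of_forall fun p => by
      rw [Real.norm_eq_abs, abs_of_nonneg (f_range p).1]; exact (f_range p).2)
  · intro c hc
    have h1 : ∀ a : ZMod 6, ∃ x : Y, f (x, a) = c := by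
      intro a
      by_contra hcon
      push Not at hcon
      have h2 : mu (Set.univ ×ˢ {a}) = 0 := by
        refine measure_mono_null ?_ hc
        rintro ⟨x, b⟩ ⟨-, hb⟩
        have hb' : b = a := hb
        subst hb'
        exact hcon x
      rw [mu, Measure.prod_prod, measure_univ, one_mul, nu, Measure.smul_apply,
        Measure.count_singleton] at h2
      simp at h2
    obtain ⟨x, hx⟩ := h1 0
    obtain ⟨y, hy⟩ := h1 3
    have e0 : f (x, 0) = 1 := by
      have : fz 0 = 4 := by decide
      simp [f, this]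
    have e3 : f (y, 3) = 0 := by
      have : fz 3 = 0 := by decide
      simp [f, this]
    rw [e0] at hx
    rw [e3] at hy
    linarith
  · intro n hn
    rw [hint]
    have hb : ∀ p, |f p * f (T^[n] p)| ≤ 1 := by
      intro p
      rw [abs_mul, abs_of_nonneg (f_range p).1, abs_of_nonneg (f_range _).1]
      exact mul_le_one₀ (f_range p).2 (f_range _).1 (f_range _).2
    have hm : Measurable fun p => f p * f (T^[n] p) := f_meas.mul (f_meas.comp (T_iter_meas n))
    rw [integral_mu (integrable_of_bdd hm hb)]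
    have e : ∀ x : Y, 1 / 6 * ∑ c : ZMod 6, f (x, c) * f (T^[n] (x, c)) =
        1 / 4 + 1 / 96 * (Kz (cs n x) : ℝ) := by
      intro x
      have h1 : ∑ c : ZMod 6, f (x, c) * f (T^[n] (x, c)) =
          1 / 16 * ((∑ c : ZMod 6, fz c * fz (c + cs n x) : ℤ) : ℝ) := by
        push_cast
        rw [Finset.mul_sum]
        refine Finset.sum_congr rfl fun c _ => ?_
        rw [T_iter]
        unfold f
        ring
      rw [h1, Kz]
      push_cast
      ring
    simp only [e]
    have hi : Integrable (fun x => (Kz (cs n x) : ℝ)) muY := by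
      have hq : Nice (fun (_ : Y) (c : ZMod 6) => (Kz c : ℝ)) := by
        refine ⟨fun c => measurable_const, ⟨∑ c : ZMod 6, |(Kz c : ℝ)|, fun x c => ?_⟩⟩
        exact Finset.single_le_sum (f := fun c : ZMod 6 => |(Kz c : ℝ)|)
          (fun c _ => abs_nonneg _) (Finset.mem_univ c)
      exact hq.integrable (cs_meas n)
    rw [integral_add (integrable_const _) (hi.const_mul _), integral_const_mul, K_zero hn]
    simp
    norm_num

/-! ### Cylinder functions -/

section Cyl

variable {W : ℕ → ZMod 6 → ℝ} {m : ℕ} {C : ℝ}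

/-- the correlation kernel of the cylinder function `W` -/
noncomputable def qq (W : ℕ → ZMod 6 → ℝ) (m : ℕ) (x : Y) (e : ZMod 6) : ℝ :=
  1 / 6 * ∑ c : ZMod 6, W (v m x) c * W (v m x) (c + e)

lemma W_meas (W : ℕ → ZMod 6 → ℝ) (m : ℕ) : Measurable fun p : X => W (v m p.1) p.2 := by
  have h1 : Measurable fun q : ℕ × ZMod 6 => W q.1 q.2 := measurable_of_countable _
  exact h1.comp (((v_meas m).comp measurable_fst).prodMk measurable_snd)

lemma qq_nice (hC : ∀ a c, |W a c| ≤ C) : Nice (qq W m) := by
  have hC0 : 0 ≤ C := (abs_nonneg _).trans (hC 0 0)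
  refine ⟨fun e => ?_, ⟨C * C, fun x e => ?_⟩⟩
  · have h1 : Measurable fun a : ℕ => 1 / 6 * ∑ c : ZMod 6, W a c * W a (c + e) :=
      measurable_of_countable _
    exact h1.comp (v_meas m)
  · unfold qq
    rw [abs_mul, abs_of_pos (by norm_num : (0 : ℝ) < 1 / 6)]
    have h1 : |∑ c : ZMod 6, W (v m x) c * W (v m x) (c + e)| ≤ ∑ c : ZMod 6, C * C := by
      refine (Finset.abs_sum_le_sum_abs _ _).trans (Finset.sum_le_sum fun c _ => ?_)
      rw [abs_mul]
      exact mul_le_mul (hC _ _) (hC _ _) (abs_nonneg _) hC0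
    rw [Finset.sum_const, Finset.card_univ, ZMod.card, nsmul_eq_mul] at h1
    push_cast at h1
    linarith

lemma qq_tr {k : ℕ} (hk : m ≤ k) (x : Y) : qq W m (tr k x) = qq W m x := by
  funext e
  unfold qq
  rw [v_tr hk]

lemma corr_eq (hC : ∀ a c, |W a c| ≤ C) {r k : ℕ} (hk : m ≤ k) :
    ∫ p, W (v m p.1) p.2 * W (v m (T^[r * 6 ^ k] p).1) (T^[r * 6 ^ k] p).2 ∂mu =
      ∫ x, qq W m x (cs (r * 6 ^ k) x) ∂muY := by
  have hC0 : 0 ≤ C := (abs_nonneg _).trans (hC 0 0)
  have hm : Measurable fun p : X =>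
      W (v m p.1) p.2 * W (v m (T^[r * 6 ^ k] p).1) (T^[r * 6 ^ k] p).2 :=
    (W_meas W m).mul ((W_meas W m).comp (T_iter_meas _))
  rw [integral_mu (integrable_of_bdd hm (C := C * C) fun p => by
    rw [abs_mul]; exact mul_le_mul (hC _ _) (hC _ _) (abs_nonneg _) hC0)]
  congr 1
  funext x
  unfold qq
  congr 1
  refine Finset.sum_congr rfl fun c _ => ?_
  rw [T_iter]
  simp only
  rw [v_pow hk]

lemma sq_eq (hC : ∀ a c, |W a c| ≤ C) :
    ∫ p : X, W (v m p.1) p.2 ^ 2 ∂mu = ∫ x, qq W m x 0 ∂muY := by
  rw [integral_mu (integrable_of_bdd ((W_meas W m).pow_const 2) (C := C ^ 2) fun p => by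
    rw [abs_pow]; exact pow_le_pow_left₀ (abs_nonneg _) (hC _ _) 2)]
  congr 1
  funext x
  unfold qq
  congr 1
  refine Finset.sum_congr rfl fun c _ => ?_
  simp only [add_zero]
  ring

lemma qq_zero_nonneg (x : Y) : 0 ≤ qq W m x 0 := by
  unfold qq
  apply mul_nonneg (by norm_num)
  refine Finset.sum_nonneg fun c _ => ?_
  rw [add_zero]
  exact mul_self_nonneg _

lemma sum_six (F : ZMod 6 → ℝ) : ∑ j ∈ Finset.range 6, F (j : ZMod 6) = ∑ g : ZMod 6, F g := by
  have h1 : ∑ g : ZMod 6, F g = F 0 + F 1 + F 2 + F 3 + F 4 + F 5 := Fin.sum_univ_six F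
  rw [h1]
  simp [Finset.sum_range_succ]

/-- the sum over all shifts of the fibre -/
lemma qq_sum (x : Y) (e : ZMod 6) : ∑ j ∈ Finset.range 6, qq W m x (e + j * 1) =
    1 / 6 * (∑ c : ZMod 6, W (v m x) c) ^ 2 := by
  have h1 : ∑ j ∈ Finset.range 6, qq W m x (e + j * 1) = ∑ g : ZMod 6, qq W m x g := by
    have h2 : ∑ g : ZMod 6, qq W m x g = ∑ g : ZMod 6, qq W m x (e + g) :=
      (Equiv.sum_comp (Equiv.addLeft e) (qq W m x)).symm
    rw [h2, ← sum_six (fun g => qq W m x (e + g))]
    simp only [mul_one]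
  rw [h1]
  unfold qq
  rw [← Finset.mul_sum, Finset.sum_comm, sq, Finset.sum_mul]
  congr 1
  refine Finset.sum_congr rfl fun c _ => ?_
  rw [← Finset.mul_sum]
  congr 1
  exact Equiv.sum_comp (Equiv.addLeft c) (W (v m x))

/-- periodicity of the kernel -/
lemma qq_period {r : ℕ} (hr : ∀ a c, W a (c + r) = W a c) (x : Y) (e : ZMod 6) :
    qq W m x (r * e) = qq W m x 0 := by
  have h1 : ∀ (j : ℕ) a c, W a (c + r * j) = W a c := by
    intro j a c
    induction j with
    | zero => simp
    | succ j ih =>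
      rw [← ih, ← hr a (c + r * j)]
      congr 1
      push_cast
      ring
  unfold qq
  congr 1
  refine Finset.sum_congr rfl fun c _ => ?_
  rw [add_zero]
  have h2 := h1 e.val (v m x) c
  rw [ZMod.natCast_zmod_val] at h2
  rw [h2]

/-- **Partial rigidity along `r 6 ^ k` of the functions with period `r` on the fibre.** -/
lemma rigid (hC : ∀ a c, |W a c| ≤ C) {r k : ℕ} (hr0 : 0 < r) (hr6 : r < 6) (hk : m ≤ k)
    (hr : ∀ a c, W a (c + r) = W a c) :
    1 / 6 * ∫ p : X, W (v m p.1) p.2 ^ 2 ∂mu ≤
      ∫ p, W (v m p.1) p.2 * W (v m (T^[r * 6 ^ k] p).1) (T^[r * 6 ^ k] p).2 ∂mu := by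
  have hn : 0 < r * 6 ^ k := Nat.mul_pos hr0 (by positivity)
  have hq := qq_nice (m := m) hC
  have hi0 : Integrable (fun x => qq W m x 0) muY := hq.integrable measurable_const
  have hi1 : Integrable (fun x => qq W m x (cs (r * 6 ^ k) x)) muY := hq.integrable (cs_meas _)
  have hi2 : Integrable (fun x => if d k x = 0 then qq W m x 0 else 0) muY := by
    have : (fun x => if d k x = 0 then qq W m x 0 else 0) =
        {x | d k x = 0}.indicator (fun x => qq W m x 0) := by
      funext x
      by_cases h : d k x = 0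
      · rw [if_pos h, Set.indicator_of_mem (show x ∈ {x | d k x = 0} from h)]
      · rw [if_neg h, Set.indicator_of_notMem (show x ∉ {x | d k x = 0} from h)]
    rw [this]
    exact hi0.indicator (d_meas k (measurableSet_singleton 0))
  rw [corr_eq hC hk, sq_eq hC, ← digit_integral k hi0 (fun x => by rw [qq_tr hk]) 0 (by norm_num)]
  rw [← sub_nonneg, ← integral_sub hi1 hi2]
  apply integral_nonneg_of_E hn (hi1.sub hi2)
  intro t
  rcases lt_trichotomy t k with ht | ht | ht
  · have : E (r * 6 ^ k) t = ∅ := by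
      rw [Set.eq_empty_iff_forall_notMem]
      rintro x ⟨h1, -⟩
      exact NC_pow hr0 (by omega) x h1
    rw [this]
    simp
  · subst ht
    apply setIntegral_nonneg (E_meas _ _)
    rintro x ⟨h1, -⟩
    obtain ⟨c, hc⟩ := cs_pow h1
    try simp only [Pi.sub_apply]
    rw [hc, qq_period hr]
    split_ifs
    · rw [sub_self]
    · rw [sub_zero]; exact qq_zero_nonneg x
  · have hdz : ∀ x ∈ E (r * 6 ^ k) t, d k x ≠ 0 := by
      rintro x ⟨-, h2⟩ h0
      apply h2
      apply NC_mono (show k + 1 ≤ t by omega)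
      unfold NC
      rw [← v_digit k x, h0, pow_succ]
      have h3 := v_lt k x
      have h4 : r * 6 ^ k ≤ 5 * 6 ^ k := Nat.mul_le_mul_right _ (by omega)
      omega
    have e1 : ∫ x in E (r * 6 ^ k) t, (qq W m x (cs (r * 6 ^ k) x) -
        if d k x = 0 then qq W m x 0 else 0) ∂muY =
        ∫ x in E (r * 6 ^ k) t, qq W m x (cs (r * 6 ^ k) x) ∂muY := by
      apply setIntegral_congr_fun (E_meas _ _)
      intro x hx
      simp only
      rw [if_neg (hdz x hx), sub_zero]
    try simp only [Pi.sub_apply]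
    rw [e1, randomise hq fun x _ => qq_tr (by omega) x]
    apply setIntegral_nonneg (E_meas _ _)
    intro x hx
    rw [del_pow hr6 ht hx, qq_sum]
    positivity

/-- **Mixing along `6 ^ k` relative to the odometer.** -/
lemma relmix (hC : ∀ a c, |W a c| ≤ C) {k : ℕ} (hk : m ≤ k) :
    ∫ p, W (v m p.1) p.2 * W (v m (T^[1 * 6 ^ k] p).1) (T^[1 * 6 ^ k] p).2 ∂mu =
      ∫ x, (1 / 6 * ∑ c : ZMod 6, W (v m x) c) ^ 2 ∂muY := by
  have hn : 0 < 1 * 6 ^ k := Nat.mul_pos one_pos (by positivity)
  have hq := qq_nice (m := m) hC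
  have hC0 : 0 ≤ C := (abs_nonneg _).trans (hC 0 0)
  have hi1 : Integrable (fun x => qq W m x (cs (1 * 6 ^ k) x)) muY := hq.integrable (cs_meas _)
  have hi2 : Integrable (fun x => (1 / 6 * ∑ c : ZMod 6, W (v m x) c) ^ 2) muY := by
    have h1 : Measurable fun a : ℕ => (1 / 6 * ∑ c : ZMod 6, W a c) ^ 2 :=
      measurable_of_countable _
    refine Integrable.of_bound (h1.comp (v_meas m)).aestronglyMeasurable (C ^ 2)
      (Eventually.of_forall fun x => ?_)
    rw [Real.norm_eq_abs, abs_pow]
    apply pow_le_pow_left₀ (abs_nonneg _)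
    rw [abs_mul, abs_of_pos (by norm_num : (0 : ℝ) < 1 / 6)]
    have h2 : |∑ c : ZMod 6, W (v m x) c| ≤ ∑ c : ZMod 6, C :=
      (Finset.abs_sum_le_sum_abs _ _).trans (Finset.sum_le_sum fun c _ => hC _ _)
    rw [Finset.sum_const, Finset.card_univ, ZMod.card, nsmul_eq_mul] at h2
    push_cast at h2
    linarith
  rw [corr_eq hC hk]
  have hE : ∀ t, ∫ x in E (1 * 6 ^ k) t, qq W m x (cs (1 * 6 ^ k) x) ∂muY =
      ∫ x in E (1 * 6 ^ k) t, (1 / 6 * ∑ c : ZMod 6, W (v m x) c) ^ 2 ∂muY := by
    intro t
    rcases lt_or_ge t k with ht | ht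
    · have : E (1 * 6 ^ k) t = ∅ := by
        rw [Set.eq_empty_iff_forall_notMem]
        rintro x ⟨h1, -⟩
        exact NC_pow one_pos (by omega) x h1
      rw [this]
      simp
    · rw [randomise hq fun x _ => qq_tr (by omega) x]
      apply setIntegral_congr_fun (E_meas _ _)
      intro x hx
      have hdel : del (1 * 6 ^ k) t x = 1 := by
        rcases ht.eq_or_lt with h | h
        · subst h
          obtain ⟨h1, -⟩ := hx
          have hd : d k (x + ((1 * 6 ^ k : ℕ) : Y)) = d k x + 1 := by
            rw [d, v_NC h1, ← v_digit k x]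
            have e : v k x + 6 ^ k * d k x + 1 * 6 ^ k = v k x + 6 ^ k * (d k x + 1) := by ring
            rw [e, Nat.add_mul_div_left _ _ (by positivity), Nat.div_eq_of_lt (v_lt k x), zero_add]
          unfold del
          rw [hd]
          push_cast
          ring
        · exact del_pow (by norm_num) h hx
      simp only
      rw [hdel, qq_sum]
      ring
  apply le_antisymm
  · rw [← sub_nonneg, ← integral_sub hi2 hi1]
    apply integral_nonneg_of_E hn (hi2.sub hi1)
    intro t
    try simp only [Pi.sub_apply]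
    rw [integral_sub hi2.integrableOn hi1.integrableOn, hE t, sub_self]
  · rw [← sub_nonneg, ← integral_sub hi1 hi2]
    apply integral_nonneg_of_E hn (hi1.sub hi2)
    intro t
    try simp only [Pi.sub_apply]
    rw [integral_sub hi1.integrableOn hi2.integrableOn, hE t, sub_self]

end Cyl

/-! ### Approximation -/

/-- cylinder sets -/
def Cylr : Set (Set X) := {A | ∃ (m : ℕ) (B : Set (ℕ × ZMod 6)), A = {p : X | (v m p.1, p.2) ∈ B}}

lemma v_mod {m M : ℕ} (h : m ≤ M) (x : Y) : v m x = v M x % 6 ^ m := by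
  induction M, h using Nat.le_induction with
  | base => rw [Nat.mod_eq_of_lt (v_lt m x)]
  | succ M hM ih =>
    rw [ih, ← v_succ M x, Nat.mod_mod_of_dvd _ (pow_dvd_pow 6 hM)]

lemma Cylr_ring : IsSetRing Cylr where
  empty_mem := ⟨0, ∅, by ext p; simp⟩
  union_mem := by
    rintro _ _ ⟨m, B, rfl⟩ ⟨m', B', rfl⟩
    refine ⟨max m m', {q | (q.1 % 6 ^ m, q.2) ∈ B} ∪ {q | (q.1 % 6 ^ m', q.2) ∈ B'}, ?_⟩
    ext p
    simp only [Set.mem_union, Set.mem_ofPred_eq]
    rw [← v_mod (le_max_left m m'), ← v_mod (le_max_right m m')]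
  sdiff_mem := by
    rintro _ _ ⟨m, B, rfl⟩ ⟨m', B', rfl⟩
    refine ⟨max m m', {q | (q.1 % 6 ^ m, q.2) ∈ B} \ {q | (q.1 % 6 ^ m', q.2) ∈ B'}, ?_⟩
    ext p
    simp only [Set.mem_sdiff, Set.mem_ofPred_eq]
    rw [← v_mod (le_max_left m m'), ← v_mod (le_max_right m m')]

lemma Cylr_meas {A : Set X} (h : A ∈ Cylr) : MeasurableSet A := by
  obtain ⟨m, B, rfl⟩ := h
  have h1 : Measurable fun p : X => (v m p.1, p.2) :=
    ((v_meas m).comp measurable_fst).prodMk measurable_snd
  exact h1 (B.to_countable.measurableSet)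

lemma Cylr_gen : (inferInstance : MeasurableSpace X) = MeasurableSpace.generateFrom Cylr := by
  apply le_antisymm
  · apply sup_le
    · show MeasurableSpace.comap Prod.fst (MeasurableSpace.comap Subtype.val MeasurableSpace.pi) ≤ _
      rw [MeasurableSpace.comap_comp, MeasurableSpace.pi, MeasurableSpace.comap_iSup]
      apply iSup_le
      intro k
      rw [MeasurableSpace.comap_comp]
      rintro s ⟨u, -, rfl⟩
      apply MeasurableSpace.measurableSet_generateFrom
      refine ⟨k, {q | (q.1 : ZMod (6 ^ k)) ∈ u}, ?_⟩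
      ext p
      simp only [Set.mem_preimage, Function.comp, Set.mem_ofPred_eq]
      have : ((v k p.1 : ℕ) : ZMod (6 ^ k)) = p.1.1 k := ZMod.natCast_zmod_val _
      rw [this]
    · rintro s ⟨u, -, rfl⟩
      apply MeasurableSpace.measurableSet_generateFrom
      exact ⟨0, {q | q.2 ∈ u}, rfl⟩
  · exact MeasurableSpace.generateFrom_le fun A hA => Cylr_meas hA

open scoped symmDiff in
lemma approx {A : Set X} (hA : MeasurableSet A) {ε : ℝ} (hε : 0 < ε) :
    ∃ (m : ℕ) (B : Set (ℕ × ZMod 6)),
      mu.real ({p : X | (v m p.1, p.2) ∈ B} ∆ A) ≤ ε := by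
  obtain ⟨t, ht, ht2⟩ := exists_measure_symmDiff_lt_of_generateFrom_isSetRing
    (μ := mu) Cylr_ring ⟨{Set.univ}, Set.countable_singleton _, by
      rw [Set.singleton_subset_iff]; exact ⟨0, Set.univ, by ext p; simp⟩, by simp⟩
      Cylr_gen hA (ENNReal.ofReal_pos.2 hε)
  obtain ⟨m, B, rfl⟩ := ht
  refine ⟨m, B, ?_⟩
  rw [measureReal_def]
  exact ENNReal.toReal_le_of_le_ofReal hε.le ht2.le

/-! ### No under-recurrent sets -/

/-- the indicator function -/
noncomputable def one (A : Set X) : X → ℝ := A.indicator fun _ => 1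

lemma one_range (A : Set X) (p : X) : 0 ≤ one A p ∧ one A p ≤ 1 := by
  unfold one
  by_cases h : p ∈ A
  · rw [Set.indicator_of_mem h]; norm_num
  · rw [Set.indicator_of_notMem h]; norm_num

lemma one_meas {A : Set X} (h : MeasurableSet A) : Measurable (one A) :=
  measurable_const.indicator h

open scoped symmDiff in
lemma one_sub_abs (A B : Set X) (p : X) : |one A p - one B p| = one (A ∆ B) p := by
  unfold one
  by_cases h1 : p ∈ A <;> by_cases h2 : p ∈ B <;>
    simp [h1, h2, Set.mem_symmDiff, Set.indicator]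

/-- the symmetrised function -/
noncomputable def uu (r L : ℕ) (a : ℝ) (A : Set X) (p : X) : ℝ :=
  ∑ j ∈ Finset.range L, (one A (V ((j * r : ℕ) : ZMod 6) p) - a)

lemma uu_meas (r L : ℕ) (a : ℝ) {A : Set X} (h : MeasurableSet A) : Measurable (uu r L a A) := by
  unfold uu
  exact Finset.measurable_fun_sum _ fun j _ => ((one_meas h).comp (V_mp _).measurable).sub_const _

lemma uu_bdd (r L : ℕ) {a : ℝ} (ha : 0 ≤ a ∧ a ≤ 1) (A : Set X) (p : X) : |uu r L a A p| ≤ L := by
  unfold uu
  refine (Finset.abs_sum_le_sum_abs _ _).trans ?_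
  have : ∀ j ∈ Finset.range L, |one A (V ((j * r : ℕ) : ZMod 6) p) - a| ≤ 1 := by
    intro j _
    have := one_range A (V ((j * r : ℕ) : ZMod 6) p)
    rw [abs_le]; constructor <;> linarith [ha.1, ha.2, this.1, this.2]
  refine (Finset.sum_le_sum this).trans ?_
  simp

open scoped symmDiff in
lemma uu_diff (r L : ℕ) (a : ℝ) {A B : Set X} (hA : MeasurableSet A) (hB : MeasurableSet B) :
    ∫ p, |uu r L a A p - uu r L a B p| ∂mu ≤ L * mu.real (A ∆ B) := by
  have hAB : MeasurableSet (A ∆ B) := hA.symmDiff hB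
  have hi : ∀ j : ℕ, Integrable (fun p => one (A ∆ B) (V ((j * r : ℕ) : ZMod 6) p)) mu := fun j =>
    integrable_of_bdd ((one_meas hAB).comp (V_mp _).measurable) (C := 1) fun p => by
      rw [abs_of_nonneg (one_range _ _).1]; exact (one_range _ _).2
  have h1 : ∀ p, |uu r L a A p - uu r L a B p| ≤
      ∑ j ∈ Finset.range L, one (A ∆ B) (V ((j * r : ℕ) : ZMod 6) p) := by
    intro p
    unfold uu
    rw [← Finset.sum_sub_distrib]
    refine (Finset.abs_sum_le_sum_abs _ _).trans (Finset.sum_le_sum fun j _ => ?_)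
    rw [← one_sub_abs]
    apply le_of_eq
    congr 1
    ring
  have h2 : Integrable (fun p => |uu r L a A p - uu r L a B p|) mu := by
    refine Integrable.mono' (g := fun p =>
      ∑ j ∈ Finset.range L, one (A ∆ B) (V ((j * r : ℕ) : ZMod 6) p))
      (integrable_finsetSum _ fun j _ => hi j) (((uu_meas r L a hA).sub (uu_meas r L a hB)).abs).aestronglyMeasurable
      (Eventually.of_forall fun p => ?_)
    rw [Real.norm_eq_abs, abs_abs]
    exact h1 p
  refine (integral_mono h2 (integrable_finsetSum _ fun j _ => hi j) h1).trans ?_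
  rw [integral_finsetSum _ fun j _ => hi j]
  have h3 : ∀ j ∈ Finset.range L, ∫ p, one (A ∆ B) (V ((j * r : ℕ) : ZMod 6) p) ∂mu =
      mu.real (A ∆ B) := by
    intro j _
    have e : (fun p => one (A ∆ B) (V ((j * r : ℕ) : ZMod 6) p)) =
        (V ((j * r : ℕ) : ZMod 6) ⁻¹' (A ∆ B)).indicator fun _ => (1 : ℝ) := rfl
    rw [e, integral_indicator ((V_mp _).measurable hAB)]
    simp only [integral_const, smul_eq_mul, mul_one, measureReal_restrict_apply_univ]
    exact (V_mp _).measureReal_preimage hAB.nullMeasurableSet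
  rw [Finset.sum_congr rfl h3, Finset.sum_const, Finset.card_range, nsmul_eq_mul]

/-- comparison of correlations -/
lemma corr_diff {F G : X → ℝ} (hF : Measurable F) (hG : Measurable G) {C : ℝ} (hC : 0 ≤ C)
    (hFC : ∀ p, |F p| ≤ C) (hGC : ∀ p, |G p| ≤ C) {δ : ℝ} (h : ∫ p, |F p - G p| ∂mu ≤ δ) (n : ℕ) :
    |∫ p, F p * F (T^[n] p) ∂mu - ∫ p, G p * G (T^[n] p) ∂mu| ≤ 2 * C * δ := by
  have hb : ∀ (F G : X → ℝ) (_ : Measurable F) (_ : Measurable G) (_ : ∀ p, |F p| ≤ C)
      (_ : ∀ p, |G p| ≤ C), Integrable (fun p => F p * G (T^[n] p)) mu := by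
    intro F G hF hG hFC hGC
    refine integrable_of_bdd (C := C * C) (hF.mul (hG.comp (T_iter_meas n))) fun p => ?_
    rw [abs_mul]
    exact mul_le_mul (hFC _) (hGC _) (abs_nonneg _) hC
  have hd : Integrable (fun p => |F p - G p|) mu := by
    refine integrable_of_bdd (C := 2 * C) (hF.sub hG).abs fun p => ?_
    rw [abs_abs]
    exact (abs_sub _ _).trans (by linarith [hFC p, hGC p])
  have hdT : Integrable (fun p => |F (T^[n] p) - G (T^[n] p)|) mu := by
    refine integrable_of_bdd (C := 2 * C)
      ((hF.comp (T_iter_meas n)).sub (hG.comp (T_iter_meas n))).abs fun p => ?_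
    rw [abs_abs]
    exact (abs_sub _ _).trans (by linarith [hFC (T^[n] p), hGC (T^[n] p)])
  have hT : ∫ p, |F (T^[n] p) - G (T^[n] p)| ∂mu = ∫ p, |F p - G p| ∂mu := by
    have h1 := (T_mp.iterate n)
    have h2 : AEStronglyMeasurable (fun p => |F p - G p|) (mu.map (T^[n])) :=
      (hF.sub hG).abs.aestronglyMeasurable
    have h3 := integral_map h1.measurable.aemeasurable h2
    rw [h1.map_eq] at h3
    exact h3.symm
  rw [← integral_sub (hb F F hF hF hFC hFC) (hb G G hG hG hGC hGC)]
  calc |∫ p, (F p * F (T^[n] p) - G p * G (T^[n] p)) ∂mu|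
      ≤ ∫ p, |F p * F (T^[n] p) - G p * G (T^[n] p)| ∂mu := by
        rw [← Real.norm_eq_abs]; exact norm_integral_le_integral_norm _
    _ ≤ ∫ p, (C * |F (T^[n] p) - G (T^[n] p)| + C * |F p - G p|) ∂mu := by
        refine integral_mono ((hb F F hF hF hFC hFC).sub (hb G G hG hG hGC hGC)).abs
          ((hdT.const_mul _).add (hd.const_mul _)) fun p => ?_
        have e : F p * F (T^[n] p) - G p * G (T^[n] p) =
            F p * (F (T^[n] p) - G (T^[n] p)) + G (T^[n] p) * (F p - G p) := by ring
        simp only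
        rw [e]
        refine (abs_add_le _ _).trans ?_
        rw [abs_mul, abs_mul]
        exact add_le_add (mul_le_mul_of_nonneg_right (hFC p) (abs_nonneg _))
          (mul_le_mul_of_nonneg_right (hGC _) (abs_nonneg _))
    _ = C * ∫ p, |F p - G p| ∂mu + C * ∫ p, |F p - G p| ∂mu := by
        rw [integral_add (hdT.const_mul _) (hd.const_mul _), integral_const_mul,
          integral_const_mul, hT]
    _ ≤ 2 * C * δ := by nlinarith

open scoped symmDiff in
/-- symmetrised functions of under-recurrent sets vanish -/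
theorem uu_zero {A : Set X} (hA : UnderRecurrentSet mu T A) {r L : ℕ} (hr0 : 0 < r) (hr6 : r < 6)
    (hrL : r * L = 6) : ∫ p, uu r L (mu.real A) A p ^ 2 ∂mu = 0 := by
  obtain ⟨hAm, hA0, hA1, hur⟩ := hA
  set a := mu.real A with ha
  have ha01 : 0 ≤ a ∧ a ≤ 1 := ⟨hA0.le, hA1.le⟩
  -- the correlations tend to zero
  have hlim : Tendsto (fun n : ℕ => ∫ p, uu r L a A p * uu r L a A (T^[n] p) ∂mu) atTop (𝓝 0) := by
    have hVA : ∀ j : ZMod 6, MeasurableSet (V j ⁻¹' A) := fun j => (V_mp j).measurable hAm
    have hVr : ∀ j : ZMod 6, mu.real (V j ⁻¹' A) = a := fun j =>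
      (V_mp j).measureReal_preimage hAm.nullMeasurableSet
    have hVu : ∀ j : ZMod 6, ∀ n, 1 ≤ n →
        mu.real (V j ⁻¹' A ∩ T^[n] ⁻¹' (V j ⁻¹' A)) ≤ mu.real (V j ⁻¹' A) ^ 2 := by
      intro j n hn
      have e : V j ⁻¹' A ∩ T^[n] ⁻¹' (V j ⁻¹' A) = V j ⁻¹' (A ∩ T^[n] ⁻¹' A) := by
        ext p
        simp only [Set.mem_inter_iff, Set.mem_preimage, V_comm]
      rw [e, (V_mp j).measureReal_preimage
        (hAm.inter (T_iter_meas n hAm)).nullMeasurableSet, hVr]
      exact hur n hn
    have hpair : ∀ i j : ZMod 6, Tendsto (fun n : ℕ =>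
        ∫ p, (one A (V i p) - a) * (one A (V j (T^[n] p)) - a) ∂mu) atTop (𝓝 0) := by
      intro i j
      have h1 := Pool.Agent.R203.UnderRec.set_mix mu T_mp (hVA j) (hVu j) (hVA i)
      have h2 := h1.sub_const (a * a)
      rw [hVr, hVr, sub_self] at h2
      refine h2.congr fun n => ?_
      have m1 : Measurable fun p => one A (V i p) := (one_meas hAm).comp (V_mp i).measurable
      have m2 : Measurable fun p => one A (V j (T^[n] p)) :=
        (one_meas hAm).comp ((V_mp j).measurable.comp (T_iter_meas n))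
      have b1 : ∀ p, |one A (V i p)| ≤ 1 := fun p => by
        rw [abs_of_nonneg (one_range _ _).1]; exact (one_range _ _).2
      have b2 : ∀ p, |one A (V j (T^[n] p))| ≤ 1 := fun p => by
        rw [abs_of_nonneg (one_range _ _).1]; exact (one_range _ _).2
      have i1 : Integrable (fun p => one A (V i p)) mu := integrable_of_bdd m1 b1
      have i2 : Integrable (fun p => one A (V j (T^[n] p))) mu := integrable_of_bdd m2 b2
      have i3 : Integrable (fun p => one A (V i p) * one A (V j (T^[n] p))) mu :=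
        integrable_of_bdd (C := 1) (m1.mul m2) fun p => by
          rw [abs_mul]; exact mul_le_one₀ (b1 p) (abs_nonneg _) (b2 p)
      have e1 : ∫ p, one A (V i p) ∂mu = a := by
        have e : (fun p => one A (V i p)) = (V i ⁻¹' A).indicator fun _ => (1 : ℝ) := rfl
        rw [e, integral_indicator (hVA i)]
        simp [hVr i]
      have e2 : ∫ p, one A (V j (T^[n] p)) ∂mu = a := by
        have e : (fun p => one A (V j (T^[n] p))) =
          (T^[n] ⁻¹' (V j ⁻¹' A)).indicator fun _ => (1 : ℝ) := rfl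
        rw [e, integral_indicator (T_iter_meas n (hVA j))]
        have := (T_mp.iterate n).measureReal_preimage (hVA j).nullMeasurableSet
        simp [this, hVr j]
      have e3 : ∫ p, one A (V i p) * one A (V j (T^[n] p)) ∂mu =
          mu.real (T^[n] ⁻¹' (V j ⁻¹' A) ∩ V i ⁻¹' A) := by
        have e : (fun p => one A (V i p) * one A (V j (T^[n] p))) =
          (T^[n] ⁻¹' (V j ⁻¹' A) ∩ V i ⁻¹' A).indicator fun _ => (1 : ℝ) := by
          funext p
          unfold one
          by_cases h1 : V i p ∈ A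
          · by_cases h2 : V j (T^[n] p) ∈ A
            · rw [Set.indicator_of_mem h1, Set.indicator_of_mem h2,
                Set.indicator_of_mem (show p ∈ _ ∩ _ from ⟨h2, h1⟩), mul_one]
            · rw [Set.indicator_of_notMem h2, mul_zero,
                Set.indicator_of_notMem (show p ∉ _ ∩ _ from fun h => h2 h.1)]
          · rw [Set.indicator_of_notMem h1, zero_mul,
              Set.indicator_of_notMem (show p ∉ _ ∩ _ from fun h => h1 h.2)]
        rw [e, integral_indicator ((T_iter_meas n (hVA j)).inter (hVA i))]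
        simp
      have e4 : (fun p => (one A (V i p) - a) * (one A (V j (T^[n] p)) - a)) =
          fun p => (one A (V i p) * one A (V j (T^[n] p)) - a * one A (V i p)) -
            (a * one A (V j (T^[n] p)) - a * a) := by
        funext p; ring
      have I1 : Integrable (fun p => one A (V i p) * one A (V j (T^[n] p)) - a * one A (V i p))
        mu := i3.sub (i1.const_mul a)
      have I2 : Integrable (fun p => a * one A (V j (T^[n] p)) - a * a) mu :=
        (i2.const_mul a).sub (integrable_const _)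
      rw [e4, integral_sub I1 I2,
        integral_sub i3 (i1.const_mul _), integral_sub (i2.const_mul _) (integrable_const _),
        integral_const_mul, integral_const_mul, e1, e2, e3]
      simp
    have hsum : Tendsto (fun n : ℕ => ∑ i ∈ Finset.range L, ∑ j ∈ Finset.range L,
        ∫ p, (one A (V ((i * r : ℕ) : ZMod 6) p) - a) *
          (one A (V ((j * r : ℕ) : ZMod 6) (T^[n] p)) - a) ∂mu) atTop (𝓝 0) := by
      have := tendsto_finsetSum (Finset.range L) fun i _ =>
        tendsto_finsetSum (Finset.range L) fun j _ =>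
          hpair ((i * r : ℕ) : ZMod 6) ((j * r : ℕ) : ZMod 6)
      simpa using this
    refine hsum.congr fun n => ?_
    have hij : ∀ i j : ℕ, Integrable (fun p => (one A (V ((i * r : ℕ) : ZMod 6) p) - a) *
          (one A (V ((j * r : ℕ) : ZMod 6) (T^[n] p)) - a)) mu := by
      intro i j
      refine integrable_of_bdd (C := 1) ((((one_meas hAm).comp (V_mp _).measurable).sub_const _).mul
        ((((one_meas hAm).comp ((V_mp _).measurable.comp (T_iter_meas n)))).sub_const _))
        fun p => ?_
      rw [abs_mul]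
      have g : ∀ q, |one A q - a| ≤ 1 := by
        intro q
        have := one_range A q
        rw [abs_le]; constructor <;> linarith [ha01.1, ha01.2, this.1, this.2]
      exact mul_le_one₀ (g _) (abs_nonneg _) (g _)
    unfold uu
    simp only [Finset.sum_mul_sum]
    rw [integral_finsetSum _ fun i _ => integrable_finsetSum _ fun j _ => hij i j]
    refine Finset.sum_congr rfl fun i _ => ?_
    rw [integral_finsetSum _ fun j _ => hij i j]
  -- the bound
  have hL : (0 : ℝ) ≤ L := Nat.cast_nonneg _
  have hbound : ∀ ε : ℝ, 0 < ε → 1 / 6 * ∫ p, uu r L a A p ^ 2 ∂mu ≤ ε := by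
    intro ε hε
    set η := ε / (4 * (L ^ 2 + 1)) with hη
    have hη0 : 0 < η := by positivity
    obtain ⟨m, B, hB⟩ := approx hAm hη0
    set A' : Set X := {p : X | (v m p.1, p.2) ∈ B} with hA'
    have hA'm : MeasurableSet A' := Cylr_meas ⟨m, B, rfl⟩
    have hdiff : ∫ p, |uu r L a A p - uu r L a A' p| ∂mu ≤ L * η := by
      refine (uu_diff r L a hAm hA'm).trans (mul_le_mul_of_nonneg_left ?_ hL)
      rw [symmDiff_comm]
      exact hB
    classical
    let W : ℕ → ZMod 6 → ℝ := fun b c => ∑ j ∈ Finset.range L,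
      ((if (b, c + ((j * r : ℕ) : ZMod 6)) ∈ B then (1 : ℝ) else 0) - a)
    have hW : ∀ p : X, uu r L a A' p = W (v m p.1) p.2 := by
      intro p
      unfold uu one
      simp only [W]
      refine Finset.sum_congr rfl fun j _ => ?_
      congr 1
    have hWC : ∀ b c, |W b c| ≤ L := by
      intro b c
      refine (Finset.abs_sum_le_sum_abs _ _).trans ?_
      have : ∀ j ∈ Finset.range L, |(if (b, c + ((j * r : ℕ) : ZMod 6)) ∈ B then (1 : ℝ) else 0)
          - a| ≤ 1 := by
        intro j _
        split_ifs <;> rw [abs_le] <;> constructor <;> linarith [ha01.1, ha01.2]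
      refine (Finset.sum_le_sum this).trans ?_
      simp
    have hWr : ∀ b c, W b (c + r) = W b c := by
      intro b c
      have hL1 : 0 < L := by
        rcases Nat.eq_zero_or_pos L with h | h
        · rw [h] at hrL; omega
        · exact h
      obtain ⟨L', rfl⟩ := Nat.exists_eq_succ_of_ne_zero hL1.ne'
      simp only [W]
      rw [Finset.sum_range_succ, Finset.sum_range_succ']
      congr 1
      · refine Finset.sum_congr rfl fun j _ => ?_
        have : c + (r : ZMod 6) + ((j * r : ℕ) : ZMod 6) = c + (((j + 1) * r : ℕ) : ZMod 6) := by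
          push_cast; ring
        rw [this]
      · have : c + (r : ZMod 6) + ((L' * r : ℕ) : ZMod 6) = c + ((0 * r : ℕ) : ZMod 6) := by
          have h6 : ((r * (L' + 1) : ℕ) : ZMod 6) = 0 := by
            rw [show r * (L' + 1) = 6 from hrL]; decide
          push_cast at h6 ⊢
          linear_combination h6
        rw [this]
    have hrig : ∀ k, m ≤ k → 1 / 6 * ∫ p, uu r L a A' p ^ 2 ∂mu ≤
        ∫ p, uu r L a A' p * uu r L a A' (T^[r * 6 ^ k] p) ∂mu := by
      intro k hk
      simp only [hW]
      exact rigid hWC hr0 hr6 hk hWr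
    have hcd : ∀ n, |∫ p, uu r L a A p * uu r L a A (T^[n] p) ∂mu -
        ∫ p, uu r L a A' p * uu r L a A' (T^[n] p) ∂mu| ≤ 2 * L * (L * η) := fun n =>
      corr_diff (uu_meas r L a hAm) (uu_meas r L a hA'm) hL (uu_bdd r L ha01 A)
        (uu_bdd r L ha01 A') hdiff n
    have h0 := hcd 0
    simp only [Function.iterate_zero, id, ← sq] at h0
    have hη2 : 2 * (L : ℝ) * (L * η) ≤ ε / 2 := by
      rw [hη, ← sub_nonneg]
      have : ε / 2 - 2 * (L : ℝ) * (L * (ε / (4 * (L ^ 2 + 1)))) =
          ε / (2 * ((L : ℝ) ^ 2 + 1)) := by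
        field_simp; ring
      rw [this]
      positivity
    have hfin : ∀ k, m ≤ k → 1 / 6 * ∫ p, uu r L a A p ^ 2 ∂mu - ε ≤
        ∫ p, uu r L a A p * uu r L a A (T^[r * 6 ^ k] p) ∂mu := by
      intro k hk
      have h1 := hrig k hk
      have h2 := hcd (r * 6 ^ k)
      have h3 := (abs_le.1 h0).2
      have h4 := (abs_le.1 h2).1
      linarith
    have hsub : Tendsto (fun k : ℕ => r * 6 ^ k) atTop atTop := by
      refine tendsto_atTop_mono (fun k => ?_) tendsto_id
      simp only [id]
      calc k ≤ 6 ^ k := (Nat.lt_pow_self (by norm_num)).le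
        _ ≤ r * 6 ^ k := Nat.le_mul_of_pos_left _ hr0
    have := ge_of_tendsto (hlim.comp hsub) (by
      filter_upwards [eventually_ge_atTop m] with k hk using hfin k hk)
    linarith
  have h1 : 1 / 6 * ∫ p, uu r L a A p ^ 2 ∂mu ≤ 0 := le_of_forall_pos_le_add fun ε hε => by
    have := hbound ε hε
    linarith
  have h2 : 0 ≤ ∫ p, uu r L a A p ^ 2 ∂mu := integral_nonneg fun p => sq_nonneg _
  linarith

/-- there is no under-recurrent set -/
theorem no_set (A : Set X) : ¬ UnderRecurrentSet mu T A := by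
  intro hA
  have h2 := uu_zero hA (r := 3) (L := 2) (by norm_num) (by norm_num) (by norm_num)
  have h3 := uu_zero hA (r := 2) (L := 3) (by norm_num) (by norm_num) (by norm_num)
  obtain ⟨hAm, hA0, hA1, -⟩ := hA
  have ha01 : 0 ≤ mu.real A ∧ mu.real A ≤ 1 := ⟨hA0.le, hA1.le⟩
  have key : ∀ r L : ℕ, ∫ p, uu r L (mu.real A) A p ^ 2 ∂mu = 0 →
      ∃ N : ℕ, (N : ℝ) = L * mu.real A := by
    intro r L h
    have hi : Integrable (fun p => uu r L (mu.real A) A p ^ 2) mu :=
      integrable_of_bdd ((uu_meas r L _ hAm).pow_const 2) (C := (L : ℝ) ^ 2) fun p => by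
        rw [abs_pow]; exact pow_le_pow_left₀ (abs_nonneg _) (uu_bdd r L ha01 A p) 2
    have h1 := (integral_eq_zero_iff_of_nonneg (fun p => sq_nonneg _) hi).1 h
    obtain ⟨p, hp⟩ := h1.exists
    have hp' : uu r L (mu.real A) A p = 0 := by
      have : uu r L (mu.real A) A p ^ 2 = 0 := hp
      exact pow_eq_zero_iff (by norm_num) |>.1 this
    unfold uu at hp'
    rw [Finset.sum_sub_distrib, Finset.sum_const, Finset.card_range, nsmul_eq_mul] at hp'
    classical
    refine ⟨((Finset.range L).filter fun j => V ((j * r : ℕ) : ZMod 6) p ∈ A).card, ?_⟩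
    rw [← Finset.sum_boole]
    have : ∑ j ∈ Finset.range L, one A (V ((j * r : ℕ) : ZMod 6) p) =
        ∑ j ∈ Finset.range L, (if V ((j * r : ℕ) : ZMod 6) p ∈ A then (1 : ℝ) else 0) := by
      refine Finset.sum_congr rfl fun j _ => ?_
      unfold one
      rw [Set.indicator_apply]
    linarith
  obtain ⟨N, hN⟩ := key 3 2 h2
  obtain ⟨M, hM⟩ := key 2 3 h3
  push_cast at hN hM
  have h4 : 0 < N := by
    have : (0 : ℝ) < N := by rw [hN]; linarith
    exact_mod_cast this
  have h5 : N < 2 := by
    have : (N : ℝ) < 2 := by rw [hN]; linarith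
    exact_mod_cast this
  have h6 : N = 1 := by omega
  rw [h6] at hN
  have h7 : (2 : ℝ) * M = 3 := by
    push_cast at hN
    linarith
  have h8 : 2 * M = 3 := by exact_mod_cast h7
  omega

/-! ### Ergodicity -/

lemma dense_nat : DenseRange (fun n : ℕ => n • (1 : Y)) := by
  rw [DenseRange, dense_iff_inter_open]
  rintro U hU ⟨x, hx⟩
  obtain ⟨O, hO, rfl⟩ := isOpen_induced_iff.1 hU
  obtain ⟨I, u, hu, hIu⟩ := isOpen_pi_iff.1 hO x.1 hx
  set k := I.sup id with hk
  refine ⟨v k x • (1 : Y), ?_, ⟨v k x, rfl⟩⟩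
  apply hIu
  intro i hi
  have hik : i ≤ k := Finset.le_sup (f := id) hi
  have e : (v k x • (1 : Y)).1 i = x.1 i := by
    have h1 : (v k x • (1 : Y)).1 i = ((v k x : ℕ) : ZMod (6 ^ i)) := by
      rw [nsmul_one]; rfl
    rw [h1]
    apply ZMod.val_injective
    rw [ZMod.val_natCast, ← v_mod hik]
    rfl
  rw [e]
  exact (hu i hi).2

lemma base_ergodic : Ergodic (fun x : Y => x + 1) muY := by
  have : SecondCountableTopology Y :=
    (Topology.IsInducing.subtypeVal (t := (YS : Set (∀ k : ℕ, ZMod (6 ^ k))))).secondCountableTopology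
  have h := ergodic_add_left_of_denseRange_nsmul (g := (1 : Y)) dense_nat muY
  have e : (fun x : Y => x + 1) = (fun x : Y => 1 + x) := by
    funext x; ring
  rw [e]
  exact h

/-- fibre averages -/
noncomputable def av (F : X → ℝ) (x : Y) : ℝ := 1 / 6 * ∑ c : ZMod 6, F (x, c)

lemma av_meas {F : X → ℝ} (hF : Measurable F) : Measurable (av F) := by
  unfold av
  exact (Finset.measurable_fun_sum _ fun c _ =>
    hF.comp (measurable_id.prodMk measurable_const)).const_mul _

lemma av_bdd {F : X → ℝ} (hF : ∀ p, |F p| ≤ 1) (x : Y) : |av F x| ≤ 1 := by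
  unfold av
  rw [abs_mul, abs_of_pos (by norm_num : (0 : ℝ) < 1 / 6)]
  have h2 : |∑ c : ZMod 6, F (x, c)| ≤ ∑ c : ZMod 6, 1 :=
    (Finset.abs_sum_le_sum_abs _ _).trans (Finset.sum_le_sum fun c _ => hF _)
  rw [Finset.sum_const, Finset.card_univ, ZMod.card, nsmul_eq_mul] at h2
  push_cast at h2
  linarith

open scoped symmDiff in
theorem T_ergodic : Ergodic T mu := by
  refine ⟨T_mp, ⟨?_⟩⟩
  intro A hA hinv
  have hiter : ∀ n : ℕ, T^[n] ⁻¹' A = A := by
    intro n
    induction n with
    | zero => rfl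
    | succ n ih => rw [Function.iterate_succ, Set.preimage_comp, ih, hinv]
  have hb : ∀ B : Set X, ∀ p, |one B p| ≤ 1 := fun B p => by
    rw [abs_of_nonneg (one_range _ _).1]; exact (one_range _ _).2
  -- the integral of the square of the fibre average
  have hYi : ∀ {g : Y → ℝ}, Measurable g → (∀ x, |g x| ≤ 1) → Integrable g muY := by
    intro g hg hg1
    exact Integrable.of_bound hg.aestronglyMeasurable 1
      (Eventually.of_forall fun x => by rw [Real.norm_eq_abs]; exact hg1 x)
  have hint : ∀ B : Set X, MeasurableSet B → ∫ p, one B p ∂mu = mu.real B := by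
    intro B hB
    unfold one
    rw [integral_indicator hB]
    simp
  have hav1 : ∫ x, av (one A) x ∂muY = mu.real A := by
    rw [← hint A hA, integral_mu (integrable_of_bdd (one_meas hA) (hb A))]
    rfl
  have hsq : mu.real A = ∫ x, av (one A) x ^ 2 ∂muY := by
    by_contra hne
    have hpos : 0 < |mu.real A - ∫ x, av (one A) x ^ 2 ∂muY| := abs_pos.2 (sub_ne_zero.2 hne)
    set ε := |mu.real A - ∫ x, av (one A) x ^ 2 ∂muY| with hε
    obtain ⟨m, B, hB⟩ := approx hA (show 0 < ε / 5 by positivity)
    set A' : Set X := {p : X | (v m p.1, p.2) ∈ B} with hA'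
    have hA'm : MeasurableSet A' := Cylr_meas ⟨m, B, rfl⟩
    have hd : ∫ p, |one A p - one A' p| ∂mu ≤ ε / 5 := by
      simp only [one_sub_abs]
      rw [hint _ (hA.symmDiff hA'm), symmDiff_comm]
      exact hB
    classical
    let W : ℕ → ZMod 6 → ℝ := fun b c => if (b, c) ∈ B then 1 else 0
    have hW : ∀ p : X, one A' p = W (v m p.1) p.2 := by
      intro p
      unfold one
      rw [Set.indicator_apply]
      rfl
    have hWC : ∀ b c, |W b c| ≤ 1 := by
      intro b c
      simp only [W]
      split_ifs <;> norm_num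
    have h1 := corr_diff (one_meas hA) (one_meas hA'm) zero_le_one (hb A) (hb A') hd (1 * 6 ^ m)
    have h2 : ∫ p, one A' p * one A' (T^[1 * 6 ^ m] p) ∂mu = ∫ x, av (one A') x ^ 2 ∂muY := by
      have := relmix (m := m) hWC (le_refl m)
      have e : ∀ x, av (one A') x = 1 / 6 * ∑ c : ZMod 6, W (v m x) c := by
        intro x
        unfold av
        refine congrArg _ ?_
        exact Finset.sum_congr rfl fun c _ => hW _
      simp only [hW, e]
      exact this
    have h3 : ∫ p, one A p * one A (T^[1 * 6 ^ m] p) ∂mu = mu.real A := by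
      have e : ∀ p, one A p * one A (T^[1 * 6 ^ m] p) = one A p := by
        intro p
        have hp : T^[1 * 6 ^ m] p ∈ A ↔ p ∈ A := by
          conv_rhs => rw [← hiter (1 * 6 ^ m)]
          rfl
        unfold one
        by_cases h : p ∈ A
        · rw [Set.indicator_of_mem h, Set.indicator_of_mem (hp.2 h), mul_one]
        · rw [Set.indicator_of_notMem h, zero_mul]
      simp only [e]
      exact hint A hA
    have h4 : |∫ x, av (one A) x ^ 2 ∂muY - ∫ x, av (one A') x ^ 2 ∂muY| ≤ 2 * (ε / 5) := by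
      have m1 := av_meas (one_meas hA)
      have m2 := av_meas (one_meas hA'm)
      have b1 := av_bdd (hb A)
      have b2 := av_bdd (hb A')
      have i1 : Integrable (fun x => av (one A) x ^ 2) muY := hYi (m1.pow_const 2) fun x => by
        rw [abs_pow]; exact pow_le_one₀ (abs_nonneg _) (b1 x)
      have i2 : Integrable (fun x => av (one A') x ^ 2) muY := hYi (m2.pow_const 2) fun x => by
        rw [abs_pow]; exact pow_le_one₀ (abs_nonneg _) (b2 x)
      have i3 : Integrable (fun p => |one A p - one A' p|) mu :=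
        integrable_of_bdd (C := 2) ((one_meas hA).sub (one_meas hA'm)).abs fun p => by
          rw [abs_abs]; exact (abs_sub _ _).trans (by linarith [hb A p, hb A' p])
      have i4 : Integrable (fun x => 2 * av (fun p => |one A p - one A' p|) x) muY := by
        have m4 := av_meas (F := fun p => |one A p - one A' p|)
          ((one_meas hA).sub (one_meas hA'm)).abs
        refine (hYi m4 (av_bdd fun p => ?_)).const_mul 2
        rw [abs_abs, one_sub_abs]
        exact (one_range _ _).2
      rw [← integral_sub i1 i2]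
      calc |∫ x, (av (one A) x ^ 2 - av (one A') x ^ 2) ∂muY|
          ≤ ∫ x, |av (one A) x ^ 2 - av (one A') x ^ 2| ∂muY := by
            rw [← Real.norm_eq_abs]; exact norm_integral_le_integral_norm _
        _ ≤ ∫ x, 2 * av (fun p => |one A p - one A' p|) x ∂muY := by
            refine integral_mono (i1.sub i2).abs i4 fun x => ?_
            have e : av (one A) x ^ 2 - av (one A') x ^ 2 =
                (av (one A) x - av (one A') x) * (av (one A) x + av (one A') x) := by ring
            simp only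
            rw [e, abs_mul, mul_comm]
            apply mul_le_mul
            · exact (abs_add_le _ _).trans (by linarith [b1 x, b2 x])
            · unfold av
              rw [← mul_sub, ← Finset.sum_sub_distrib, abs_mul,
                abs_of_pos (by norm_num : (0 : ℝ) < 1 / 6)]
              exact mul_le_mul_of_nonneg_left (Finset.abs_sum_le_sum_abs _ _) (by norm_num)
            · exact abs_nonneg _
            · norm_num
        _ = 2 * ∫ p, |one A p - one A' p| ∂mu := by
            rw [integral_const_mul, integral_mu i3]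
            rfl
        _ ≤ 2 * (ε / 5) := by linarith
    rw [h2, h3] at h1
    have h5 : |mu.real A - ∫ x, av (one A) x ^ 2 ∂muY| ≤ 2 * 1 * (ε / 5) + 2 * (ε / 5) := by
      have := abs_sub_le (mu.real A) (∫ x, av (one A') x ^ 2 ∂muY) (∫ x, av (one A) x ^ 2 ∂muY)
      rw [abs_sub_comm (∫ x, av (one A') x ^ 2 ∂muY)] at this
      linarith
    linarith
  -- the fibre average takes the values zero and one
  have m1 := av_meas (one_meas hA)
  have b1 := av_bdd (hb A)
  have n1 : ∀ x, 0 ≤ av (one A) x := fun x =>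
    mul_nonneg (by norm_num) (Finset.sum_nonneg fun c _ => (one_range _ _).1)
  have u1 : ∀ x, av (one A) x ≤ 1 := fun x => (le_abs_self _).trans (b1 x)
  have i1 : Integrable (av (one A)) muY := hYi m1 b1
  have i2 : Integrable (fun x => av (one A) x ^ 2) muY := hYi (m1.pow_const 2) fun x => by
    rw [abs_pow]; exact pow_le_one₀ (abs_nonneg _) (b1 x)
  have hz : ∫ x, (av (one A) x - av (one A) x ^ 2) ∂muY = 0 := by
    rw [integral_sub i1 i2, hav1, ← hsq, sub_self]
  have hz2 := (integral_eq_zero_iff_of_nonneg (fun x => by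
    show 0 ≤ av (one A) x - av (one A) x ^ 2
    nlinarith [n1 x, u1 x]) (i1.sub i2)).1 hz
  -- invariance of the fibre average
  have hinvx : ∀ x : Y, av (one A) (x + 1) = av (one A) x := by
    intro x
    unfold av
    congr 1
    have h1 : ∀ c, one A (x, c) = one A (x + 1, c + phi x) := by
      intro c
      have hp : (x + 1, c + phi x) ∈ A ↔ (x, c) ∈ A := by
        conv_rhs => rw [← hinv]
        rfl
      unfold one
      by_cases h : (x, c) ∈ A
      · rw [Set.indicator_of_mem h, Set.indicator_of_mem (hp.2 h)]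
      · rw [Set.indicator_of_notMem h, Set.indicator_of_notMem (fun h2 => h (hp.1 h2))]
    simp only [h1]
    exact (Equiv.sum_comp (Equiv.addRight (phi x)) fun c => one A (x + 1, c)).symm
  set B : Set Y := {x | av (one A) x = 1} with hB
  have hBm : MeasurableSet B := m1 (measurableSet_singleton 1)
  have hBinv : (fun x : Y => x + 1) ⁻¹' B = B := by
    ext x
    show av (one A) (x + 1) = 1 ↔ av (one A) x = 1
    rw [hinvx]
  have hmuA : mu.real A = muY.real B := by
    rw [← hav1]
    have e : av (one A) =ᵐ[muY] B.indicator fun _ => (1 : ℝ) := by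
      filter_upwards [hz2] with x hx
      have hx' : av (one A) x - av (one A) x ^ 2 = 0 := hx
      by_cases h : av (one A) x = 1
      · rw [Set.indicator_of_mem (show x ∈ B from h), h]
      · rw [Set.indicator_of_notMem (show x ∉ B from h)]
        have h3 : av (one A) x * (1 - av (one A) x) = 0 := by linarith
        rcases mul_eq_zero.1 h3 with h4 | h4
        · exact h4
        · exact absurd (by linarith) h
    rw [integral_congr_ae e, integral_indicator hBm]
    simp
  have hB01 := base_ergodic.measure_self_or_compl_eq_zero hBm hBinv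
  rw [Filter.eventuallyConst_set']
  rcases hB01 with h | h
  · left
    rw [ae_eq_empty]
    have : mu.real A = 0 := by rw [hmuA, measureReal_def, h]; rfl
    exact (measureReal_eq_zero_iff).1 this
  · right
    rw [ae_eq_univ, prob_compl_eq_zero_iff hA]
    have h6 : mu.real A = 1 := by
      rw [hmuA]
      have := probReal_compl_eq_one_sub (μ := muY) hBm
      rw [measureReal_def, h] at this
      simp only [ENNReal.toReal_zero] at this
      linarith
    rw [measureReal_def] at h6
    exact (ENNReal.toReal_eq_one_iff _).1 h6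

/-- **MP_73c876_an, Q1: no.** There is an ergodic measure preserving system on a probability space
with an under-recurrent function with values in `[0, 1]` but without under-recurrent sets. -/
theorem result : ∃ (X : Type) (_ : MeasurableSpace X) (μ : Measure X) (_ : IsProbabilityMeasure μ)
    (T : X → X), Ergodic T μ ∧
      (∃ f : X → ℝ, (∀ x, 0 ≤ f x ∧ f x ≤ 1) ∧ UnderRecurrentFun μ T f) ∧
      ∀ A : Set X, ¬ UnderRecurrentSet μ T A :=
  ⟨X, inferInstance, mu, inferInstance, T, T_ergodic, ⟨f, f_range, f_under⟩, no_set⟩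

end Pool.Agent.Results.MP_73c876_an.ErgodicExample
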